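import Pool.Agent.Y873.OF.Bad

set_option autoImplicit false

/-!
The proportion of non-minimal pairs with a power saving.
-/

open Filter

namespace Pool.Agent.Y873.OF

open RA

theorem log_two_le (n : ℕ) (hn : 1 ≤ n) : (Nat.log 2 n : ℝ) ≤ 2 * Real.log n := by
  have h1 : 2 ^ Nat.log 2 n ≤ n := Nat.pow_log_le_self 2 (by omega)
  have h3 : ((2 : ℝ) ^ Nat.log 2 n) ≤ n := by exact_mod_cast h1
  have h4 := Real.log_le_log (by positivity) h3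
  rw [Real.log_pow] at h4
  have h5 := Real.log_two_gt_d9
  have h6 : (0 : ℝ) ≤ (Nat.log 2 n : ℝ) := by positivity
  nlinarith

/-- the logarithmic factor is absorbed. -/
theorem log_absorb (b : ℝ) (hb : 0 < b) : ∃ n0 : ℕ, ∀ n : ℕ, n0 ≤ n →
    ((Nat.log 2 n : ℝ) + 1) ^ 2 ≤ (n : ℝ) ^ b := by
  have hb2 : 0 < b / 2 := by positivity
  have hlit : ∀ᶠ x : ℝ in atTop, ‖Real.log x‖ ≤ (1 / 4) * ‖x ^ (b / 2)‖ :=
    (isLittleO_log_rpow_atTop hb2).bound (by positivity)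
  have h2 : ∀ᶠ x : ℝ in atTop, 2 ≤ x ^ (b / 2) := (tendsto_rpow_atTop hb2).eventually_ge_atTop _
  obtain ⟨X, hX⟩ := eventually_atTop.1 (hlit.and h2)
  refine ⟨max 1 ⌈X⌉₊, fun n hn => ?_⟩
  have hn1 : 1 ≤ n := (le_max_left _ _).trans hn
  have hnX : X ≤ (n : ℝ) := (Nat.le_ceil X).trans (by exact_mod_cast (le_max_right _ _).trans hn)
  obtain ⟨ha, hb'⟩ := hX n hnX
  have hnR : (0 : ℝ) < n := by exact_mod_cast hn1
  have hy0 : 0 < (n : ℝ) ^ (b / 2) := Real.rpow_pos_of_pos hnR _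
  rw [Real.norm_eq_abs, Real.norm_of_nonneg hy0.le] at ha
  have h3 := log_two_le n hn1
  have h4 : Real.log n ≤ 1 / 4 * (n : ℝ) ^ (b / 2) := (le_abs_self _).trans ha
  have h5 : (Nat.log 2 n : ℝ) + 1 ≤ (n : ℝ) ^ (b / 2) := by linarith
  calc ((Nat.log 2 n : ℝ) + 1) ^ 2 ≤ ((n : ℝ) ^ (b / 2)) ^ 2 :=
        pow_le_pow_left₀ (by positivity) h5 2
    _ = (n : ℝ) ^ b := by
        rw [← Real.rpow_natCast, ← Real.rpow_mul hnR.le]; congr 1; push_cast; ring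

theorem exists_root (k : ℕ) (m : ℕ) : ∃ ρ : ℕ, 1 ≤ ρ ∧ ρ ^ (2 * k + 2) ≤ m + 1 ∧
    ((m : ℝ) + 1) ^ (1 / ((2 * k + 2 : ℕ) : ℝ)) ≤ 2 * ρ := by
  obtain ⟨x, hx⟩ : ∃ x : ℝ, x = ((m : ℝ) + 1) ^ (1 / ((2 * k + 2 : ℕ) : ℝ)) := ⟨_, rfl⟩
  have hm1 : (1 : ℝ) ≤ (m : ℝ) + 1 := by
    have : (0 : ℝ) ≤ m := Nat.cast_nonneg m
    linarith
  have hx1 : 1 ≤ x := by rw [hx]; exact Real.one_le_rpow hm1 (by positivity)
  have hx0 : 0 ≤ x := by linarith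
  have hxm : x ^ (2 * k + 2) = (m : ℝ) + 1 := by
    rw [hx, ← Real.rpow_natCast, ← Real.rpow_mul (by positivity), one_div,
      inv_mul_cancel₀ (by positivity), Real.rpow_one]
  have h1 : 1 ≤ ⌊x⌋₊ := Nat.le_floor (by exact_mod_cast hx1)
  have h1R : (1 : ℝ) ≤ (⌊x⌋₊ : ℝ) := by exact_mod_cast h1
  refine ⟨⌊x⌋₊, h1, ?_, ?_⟩
  · have h2 : ((⌊x⌋₊ ^ (2 * k + 2) : ℕ) : ℝ) ≤ ((m + 1 : ℕ) : ℝ) := by
      push_cast
      rw [← hxm]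
      exact pow_le_pow_left₀ (by positivity) (Nat.floor_le hx0) _
    exact_mod_cast h2
  · rw [← hx]
    have := Nat.lt_floor_add_one x
    linarith

theorem small_pow (n : ℕ) (hn : 1 ≤ n) : ((3 : ℝ) / 8) ^ n ≤ 1 / n := by
  have hnR : (0 : ℝ) < n := by exact_mod_cast hn
  have h1 : (n : ℝ) ≤ 2 ^ n := by exact_mod_cast (Nat.lt_two_pow_self (n := n)).le
  have h2 : ((3 : ℝ) / 8) ^ n ≤ (1 / 2) ^ n := pow_le_pow_left₀ (by norm_num) (by norm_num) _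
  refine h2.trans ?_
  rw [one_div_pow]
  exact one_div_le_one_div_of_le hnR h1

/-- the bad pairs, all pieces together. -/
theorem ratio (k : ℕ) (hk : 2 ≤ k) : ∃ C m0 : ℕ, ∀ m ρ : ℕ, m0 ≤ m → 1 ≤ ρ →
    ρ ^ (2 * k + 2) ≤ m + 1 →
      (Set.ncard {x : (Fin (m+1) → Fin k → Fin (m+1)) × Fin (m+1) | Acc x.1 0 ∧
        ¬ ∀ p q, LE x.1 x.2 p q → p = q} : ℝ)
      ≤ (1 / (2 * ((m:ℝ)+1)^(k-2)) + (C / ((m:ℝ)+1) + 1 / m +
          C * ((Nat.log 2 (m+1) : ℝ) + 1)^2 / ρ + (3/8:ℝ)^(m+1))) *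
        (Set.ncard {x : (Fin (m+1) → Fin k → Fin (m+1)) × Fin (m+1) | Acc x.1 0} : ℝ) := by
  obtain ⟨C, m0, h⟩ := bad_pieces k hk
  refine ⟨C, m0 + 1, fun m ρ hm hρ1 hρ => ?_⟩
  obtain ⟨b1, b2, b3, b4, b5, h1, h2, h3, h4, h5, h6⟩ := h m ρ (by omega) hρ1 hρ
  have hall : Set.ncard {x : (Fin (m+1) → Fin k → Fin (m+1)) × Fin (m+1) | Acc x.1 0}
      = accN m k * (m+1) := by
    have := ncard_prod_first (α := Fin (m+1) → Fin k → Fin (m+1)) (β := Fin (m+1))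
      {T | Acc T 0}
    simpa [accN] using this
  rw [hall]
  have hA : (0:ℝ) < accN m k := by exact_mod_cast accN_pos m k (by omega)
  have hm1 : (0:ℝ) < m := by exact_mod_cast (by omega : 0 < m)
  have hρR : (0:ℝ) < ρ := by exact_mod_cast hρ1
  have g1 : (b1:ℝ) ≤ accN m k / (2 * ((m:ℝ)+1)^(k-2)) := by
    rw [le_div_iff₀ (by positivity)]
    have : (2 * (m+1)^(k-2) * b1 : ℝ) ≤ accN m k := by exact_mod_cast h1
    nlinarith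
  have g2 : (b2:ℝ) ≤ C * accN m k / ((m:ℝ)+1) := by
    rw [le_div_iff₀ (by positivity)]
    have : ((m+1) * b2 : ℝ) ≤ C * accN m k := by exact_mod_cast h2
    nlinarith
  have g3 : (b3:ℝ) ≤ accN m k / m := by
    rw [le_div_iff₀ (by positivity)]
    have : (m * b3 : ℝ) ≤ accN m k := by exact_mod_cast h3
    nlinarith
  have g4 : (b4:ℝ) ≤ C * ((Nat.log 2 (m+1) : ℝ) + 1)^2 * ((m:ℝ)+1) * accN m k / ρ := by
    rw [le_div_iff₀ (by positivity)]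
    exact_mod_cast h4
  have g5 : (b5:ℝ) ≤ (3/8:ℝ)^(m+1) * accN m k := by
    have : (b5 * 8^(m+1) : ℝ) ≤ 3^(m+1) * accN m k := by exact_mod_cast h5
    rw [div_pow, div_mul_eq_mul_div, le_div_iff₀ (by positivity)]
    exact this
  have g6 : (Set.ncard {x : (Fin (m+1) → Fin k → Fin (m+1)) × Fin (m+1) | Acc x.1 0 ∧
      ¬ ∀ p q, LE x.1 x.2 p q → p = q} : ℝ)
      ≤ (m+1) * b1 + (m+1) * b2 + (m+1) * b3 + b4 + b5 := by exact_mod_cast h6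
  refine le_trans g6 ?_
  have g5' : (b5:ℝ) ≤ (3/8:ℝ)^(m+1) * (accN m k * (m+1)) := by
    refine le_trans g5 ?_
    have : (0:ℝ) ≤ (3/8:ℝ)^(m+1) * accN m k := by positivity
    nlinarith
  have e1 : ((m:ℝ)+1) * b1 ≤ 1 / (2 * ((m:ℝ)+1)^(k-2)) * (accN m k * (m+1)) := by
    calc ((m:ℝ)+1) * b1 ≤ ((m:ℝ)+1) * (accN m k / (2 * ((m:ℝ)+1)^(k-2))) := by gcongr
      _ = _ := by ring
  have e2 : ((m:ℝ)+1) * b2 ≤ C / ((m:ℝ)+1) * (accN m k * (m+1)) := by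
    calc ((m:ℝ)+1) * b2 ≤ ((m:ℝ)+1) * (C * accN m k / ((m:ℝ)+1)) := by gcongr
      _ = _ := by ring
  have e3 : ((m:ℝ)+1) * b3 ≤ 1 / m * (accN m k * (m+1)) := by
    calc ((m:ℝ)+1) * b3 ≤ ((m:ℝ)+1) * (accN m k / m) := by gcongr
      _ = _ := by ring
  have e4 : (b4:ℝ) ≤ C * ((Nat.log 2 (m+1) : ℝ) + 1)^2 / ρ * (accN m k * (m+1)) := by
    refine le_trans g4 (le_of_eq ?_)
    ring
  have e0 : ((accN m k * (m + 1) : ℕ) : ℝ) = (accN m k : ℝ) * ((m : ℝ) + 1) := by push_cast; ring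
  rw [e0, add_mul, add_mul, add_mul, add_mul]
  linarith

/-- **The power saving.** -/
theorem nonmin_power (k : ℕ) (hk : 2 ≤ k) : ∃ C : ℝ, 0 < C ∧ ∀ m : ℕ,
      (Set.ncard {x : (Fin (m+1) → Fin k → Fin (m+1)) × Fin (m+1) | Acc x.1 0 ∧
        ¬ ∀ p q, LE x.1 x.2 p q → p = q} : ℝ)
      ≤ (1 / (2 * ((m:ℝ)+1)^(k-2)) + C * ((m:ℝ)+1)^(-(1 / (2 * (k:ℝ) + 3)))) *
        (Set.ncard {x : (Fin (m+1) → Fin k → Fin (m+1)) × Fin (m+1) | Acc x.1 0} : ℝ) := by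
  obtain ⟨C, m0, h⟩ := ratio k hk
  obtain ⟨a, ha⟩ : ∃ a : ℝ, a = 1 / (2 * (k:ℝ) + 3) := ⟨_, rfl⟩
  obtain ⟨c, hc⟩ : ∃ c : ℝ, c = 1 / ((2 * k + 2 : ℕ) : ℝ) := ⟨_, rfl⟩
  have ha0 : 0 < a := by rw [ha]; positivity
  have ha1 : a ≤ 1 := by
    rw [ha, div_le_one (by positivity)]
    have : (0:ℝ) ≤ k := Nat.cast_nonneg k
    linarith
  have hac : a < c := by
    rw [ha, hc]
    apply one_div_lt_one_div_of_lt (by positivity)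
    push_cast
    linarith
  obtain ⟨n1, hn1⟩ := log_absorb (c - a) (by linarith)
  rw [← ha]
  obtain ⟨M, hM⟩ : ∃ M : ℕ, M = m0 + n1 + 1 := ⟨_, rfl⟩
  refine ⟨3 * C + 3 + (M + 1), by positivity, fun m => ?_⟩
  have hmR : (0:ℝ) ≤ m := Nat.cast_nonneg m
  have hm1 : (1:ℝ) ≤ (m:ℝ) + 1 := by linarith
  have hm0 : (0:ℝ) < (m:ℝ) + 1 := by linarith
  have hz : 0 < ((m:ℝ)+1)^(-a) := Real.rpow_pos_of_pos hm0 _
  have hinv : 1 / ((m:ℝ)+1) ≤ ((m:ℝ)+1)^(-a) := by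
    rw [one_div, ← Real.rpow_neg_one]
    exact Real.rpow_le_rpow_of_exponent_le hm1 (by linarith)
  have hnn : (0:ℝ) ≤ (Set.ncard {x : (Fin (m+1) → Fin k → Fin (m+1)) × Fin (m+1) |
    Acc x.1 0} : ℝ) := Nat.cast_nonneg _
  have hq : 0 ≤ 1 / (2 * ((m:ℝ)+1)^(k-2)) := by positivity
  rcases lt_or_ge m M with hlt | hge
  · have h1 : (Set.ncard {x : (Fin (m+1) → Fin k → Fin (m+1)) × Fin (m+1) | Acc x.1 0 ∧
        ¬ ∀ p q, LE x.1 x.2 p q → p = q} : ℝ) ≤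
        (Set.ncard {x : (Fin (m+1) → Fin k → Fin (m+1)) × Fin (m+1) | Acc x.1 0} : ℝ) := by
      have := Set.ncard_le_ncard (s := {x : (Fin (m+1) → Fin k → Fin (m+1)) × Fin (m+1) |
        Acc x.1 0 ∧ ¬ ∀ p q, LE x.1 x.2 p q → p = q}) (t := {x | Acc x.1 0})
        (fun x hx => hx.1) (Set.toFinite _)
      exact_mod_cast this
    have h2 : (1:ℝ) ≤ (3 * C + 3 + (M + 1)) * ((m:ℝ)+1)^(-a) := by
      have h3 : (m:ℝ) + 1 ≤ M + 1 := by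
        have : (m:ℝ) ≤ M := by exact_mod_cast hlt.le
        linarith
      calc (1:ℝ) = ((m:ℝ) + 1) * (1 / ((m:ℝ)+1)) := by field_simp
        _ ≤ (M + 1) * ((m:ℝ)+1)^(-a) := by gcongr
        _ ≤ (3 * C + 3 + (M + 1)) * ((m:ℝ)+1)^(-a) := by
          apply mul_le_mul_of_nonneg_right _ hz.le
          have : (0:ℝ) ≤ C := Nat.cast_nonneg C
          linarith
    calc _ ≤ _ := h1
      _ = 1 * _ := (one_mul _).symm
      _ ≤ _ := by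
        apply mul_le_mul_of_nonneg_right _ hnn
        linarith
  · obtain ⟨ρ, hρ1, hρ, hρx⟩ := exists_root k m
    refine (h m ρ (by omega) hρ1 hρ).trans ?_
    apply mul_le_mul_of_nonneg_right _ hnn
    have hρR : (0:ℝ) < ρ := by exact_mod_cast hρ1
    have hCR : (0:ℝ) ≤ C := Nat.cast_nonneg C
    have t1 : (C:ℝ) / ((m:ℝ)+1) ≤ C * ((m:ℝ)+1)^(-a) := by
      rw [div_eq_mul_one_div]
      gcongr
    have t2 : (1:ℝ) / m ≤ 2 * ((m:ℝ)+1)^(-a) := by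
      have hm1' : (1:ℝ) ≤ m := by exact_mod_cast (by omega : 1 ≤ m)
      have : (1:ℝ) / m ≤ 2 * (1 / ((m:ℝ)+1)) := by
        rw [mul_one_div, div_le_div_iff₀ (by linarith) hm0]
        linarith
      linarith
    have t4 : (3/8:ℝ)^(m+1) ≤ ((m:ℝ)+1)^(-a) := by
      have := small_pow (m+1) (by omega)
      push_cast at this
      linarith
    have t3 : (C:ℝ) * ((Nat.log 2 (m+1) : ℝ) + 1)^2 / ρ ≤ 2 * C * ((m:ℝ)+1)^(-a) := by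
      have h5 := hn1 (m+1) (by omega)
      push_cast at h5
      rw [← hc] at hρx
      rw [div_le_iff₀ hρR]
      have h6 : ((m:ℝ)+1)^(c - a) = ((m:ℝ)+1)^c * ((m:ℝ)+1)^(-a) := by
        rw [← Real.rpow_add hm0]; rfl
      calc (C:ℝ) * ((Nat.log 2 (m+1) : ℝ) + 1)^2 ≤ C * ((m:ℝ)+1)^(c - a) := by gcongr
        _ = C * (((m:ℝ)+1)^c * ((m:ℝ)+1)^(-a)) := by rw [h6]
        _ ≤ C * ((2 * ρ) * ((m:ℝ)+1)^(-a)) := by gcongr
        _ = 2 * C * ((m:ℝ)+1)^(-a) * ρ := by ring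
    have hM0 : (0:ℝ) ≤ ((M:ℝ) + 1) * ((m:ℝ)+1)^(-a) := by positivity
    have e : (3 * (C:ℝ) + 3 + (M + 1)) * ((m:ℝ)+1)^(-a) = C * ((m:ℝ)+1)^(-a) +
        2 * ((m:ℝ)+1)^(-a) + 2 * C * ((m:ℝ)+1)^(-a) + ((m:ℝ)+1)^(-a) +
        ((M:ℝ) + 1) * ((m:ℝ)+1)^(-a) := by ring
    rw [e]
    linarith

end Pool.Agent.Y873.OF
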