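import Mathlib

set_option autoImplicit false

/-!
The asymptotic inequality behind the power rate.
-/

namespace Pool.Agent.Y873.OF

open Filter

theorem asymp (k : ℕ) : ∃ n0 : ℕ, ∀ N ρ : ℕ, n0 ≤ N → ρ ^ (2 * k + 2) ≤ N →
    N ^ (1 + k * ((Nat.sqrt (N * ρ) + 1) * 2 ^ 48 * (1 + ρ) ^ k)) ≤ 2 ^ N := by
  obtain ⟨K, hK⟩ : ∃ K : ℝ, K = 1 + k * 2 ^ (49 + k) := ⟨_, rfl⟩
  have hKpos : 0 < K := by rw [hK]; positivity
  have hexp : (0 : ℝ) < 1 / ((4 * k + 4 : ℕ) : ℝ) := by positivity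
  have hlit : ∀ᶠ x : ℝ in atTop,
      ‖Real.log x‖ ≤ (1 / (4 * K)) * ‖x ^ (1 / ((4 * k + 4 : ℕ) : ℝ))‖ :=
    (isLittleO_log_rpow_atTop hexp).bound (by positivity)
  have h2 : ∀ᶠ x : ℝ in atTop, 2 * K ≤ x ^ (1 / ((4 * k + 4 : ℕ) : ℝ)) :=
    (tendsto_rpow_atTop hexp).eventually_ge_atTop _
  obtain ⟨X, hX⟩ := eventually_atTop.1 (hlit.and h2)
  refine ⟨max 1 ⌈X⌉₊, fun N ρ hN hρN => ?_⟩
  have hN1 : 1 ≤ N := (le_max_left _ _).trans hN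
  have hNX : X ≤ (N : ℝ) := (Nat.le_ceil X).trans (by exact_mod_cast (le_max_right _ _).trans hN)
  obtain ⟨ha, hb⟩ := hX N hNX
  have hNR : (1 : ℝ) ≤ N := by exact_mod_cast hN1
  obtain ⟨x, hx⟩ : ∃ x : ℝ, x = (N : ℝ) ^ (1 / ((4 * k + 4 : ℕ) : ℝ)) := ⟨_, rfl⟩
  rw [← hx] at ha hb
  have hx1 : 1 ≤ x := by rw [hx]; exact Real.one_le_rpow hNR hexp.le
  have hx0 : 0 < x := by linarith
  have hxN : x ^ (4 * k + 4) = N := by
    rw [hx, ← Real.rpow_natCast, ← Real.rpow_mul (by positivity), one_div,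
      inv_mul_cancel₀ (by positivity), Real.rpow_one]
  have hρx : (ρ : ℝ) ≤ x ^ 2 := by
    have h : (ρ : ℝ) ^ (2 * k + 2) ≤ (x ^ 2) ^ (2 * k + 2) := by
      rw [← pow_mul, show 2 * (2 * k + 2) = 4 * k + 4 by ring, hxN]
      exact_mod_cast hρN
    exact (pow_le_pow_iff_left₀ (by positivity) (by positivity) (by omega)).1 h
  have hsq : (Nat.sqrt (N * ρ) : ℝ) ≤ x ^ (2 * k + 3) := by
    have h1 : Nat.sqrt (N * ρ) * Nat.sqrt (N * ρ) ≤ N * ρ := Nat.sqrt_le _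
    have h1' : ((Nat.sqrt (N * ρ) : ℝ)) ^ 2 ≤ (x ^ (2 * k + 3)) ^ 2 := by
      have h3 : ((Nat.sqrt (N * ρ) : ℝ)) ^ 2 ≤ N * ρ := by
        rw [sq]; exact_mod_cast h1
      calc _ ≤ (N : ℝ) * ρ := h3
        _ ≤ x ^ (4 * k + 4) * x ^ 2 := by rw [hxN]; gcongr
        _ = _ := by ring
    exact (pow_le_pow_iff_left₀ (by positivity) (by positivity) (by norm_num)).1 h1'
  have hlogN : (Nat.log 2 N : ℝ) ≤ 2 * Real.log N := by
    have h1 : 2 ^ Nat.log 2 N ≤ N := Nat.pow_log_le_self 2 (by omega)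
    have h3 : ((2 : ℝ) ^ Nat.log 2 N) ≤ N := by exact_mod_cast h1
    have h4 := Real.log_le_log (by positivity) h3
    rw [Real.log_pow] at h4
    have h5 := Real.log_two_gt_d9
    have h6 : (0 : ℝ) ≤ (Nat.log 2 N : ℝ) := by positivity
    nlinarith
  have hy : ((Nat.log 2 N : ℝ) + 1) * K ≤ x := by
    have h3 : Real.log N ≤ 1 / (4 * K) * x := by
      refine (le_abs_self _).trans ?_
      rw [Real.norm_eq_abs, Real.norm_of_nonneg hx0.le] at ha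
      exact ha
    have h4 : Real.log N * (4 * K) ≤ x := by
      have := mul_le_mul_of_nonneg_right h3 (by positivity : (0 : ℝ) ≤ 4 * K)
      calc Real.log N * (4 * K) ≤ 1 / (4 * K) * x * (4 * K) := this
        _ = x := by field_simp
    nlinarith
  have hN2 : N < 2 ^ (Nat.log 2 N + 1) := Nat.lt_pow_succ_log_self (by norm_num) N
  obtain ⟨E, hE⟩ : ∃ E, E = 1 + k * ((Nat.sqrt (N * ρ) + 1) * 2 ^ 48 * (1 + ρ) ^ k) := ⟨_, rfl⟩
  have hER : (E : ℝ) ≤ K * x ^ (4 * k + 3) := by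
    have hcast : (E : ℝ) =
        1 + (k : ℝ) * (((Nat.sqrt (N * ρ) : ℝ) + 1) * 2 ^ 48 * (1 + (ρ : ℝ)) ^ k) := by
      rw [hE]; push_cast; ring
    rw [hcast]
    have hx3 : 1 ≤ x ^ (2 * k + 3) := one_le_pow₀ hx1
    have hx4 : 1 ≤ x ^ (4 * k + 3) := one_le_pow₀ hx1
    have hx2 : 1 ≤ x ^ 2 := one_le_pow₀ hx1
    have e1 : (Nat.sqrt (N * ρ) : ℝ) + 1 ≤ 2 * x ^ (2 * k + 3) := by linarith
    have e2 : (1 + (ρ : ℝ)) ^ k ≤ (2 * x ^ 2) ^ k :=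
      pow_le_pow_left₀ (by positivity) (by linarith) _
    calc 1 + (k : ℝ) * (((Nat.sqrt (N * ρ) : ℝ) + 1) * 2 ^ 48 * (1 + (ρ : ℝ)) ^ k)
        ≤ 1 + (k : ℝ) * ((2 * x ^ (2 * k + 3)) * 2 ^ 48 * (2 * x ^ 2) ^ k) := by gcongr
      _ = 1 + (k : ℝ) * 2 ^ (49 + k) * x ^ (4 * k + 3) := by
          rw [mul_pow, ← pow_mul]; ring
      _ ≤ K * x ^ (4 * k + 3) := by rw [hK, add_mul, one_mul]; linarith
  rw [← hE]
  calc N ^ E ≤ (2 ^ (Nat.log 2 N + 1)) ^ E := Nat.pow_le_pow_left hN2.le _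
    _ = 2 ^ ((Nat.log 2 N + 1) * E) := by rw [← pow_mul]
    _ ≤ 2 ^ N := by
      refine Nat.pow_le_pow_right (by norm_num) ?_
      have h5 : (((Nat.log 2 N + 1) * E : ℕ) : ℝ) ≤ (N : ℝ) := by
        push_cast
        calc ((Nat.log 2 N : ℝ) + 1) * E ≤ ((Nat.log 2 N : ℝ) + 1) * (K * x ^ (4 * k + 3)) := by
              gcongr
          _ = (((Nat.log 2 N : ℝ) + 1) * K) * x ^ (4 * k + 3) := by ring
          _ ≤ x * x ^ (4 * k + 3) := by gcongr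
          _ = x ^ (4 * k + 4) := by ring
          _ = N := hxN
      exact_mod_cast h5

end Pool.Agent.Y873.OF
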