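import Pool.Agent.Y873.OF.Cng
import Pool.Agent.Y873.OF.Asy

set_option autoImplicit false

/-!
The bad pairs of `RA.bad_pieces`, with a free parameter `ρ`.
-/

open Finset

namespace Pool.Agent.Y873.OF

open RA

/-- the total number of bad pairs, in pieces. -/
theorem bad_pieces (k : ℕ) (hk : 2 ≤ k) : ∃ C m0 : ℕ, ∀ m ρ, m0 ≤ m → 1 ≤ ρ →
    ρ ^ (2 * k + 2) ≤ m + 1 → ∃ b1 b2 b3 b4 b5 : ℕ,
      2 * (m+1)^(k-2) * b1 ≤ accN m k ∧ (m+1) * b2 ≤ C * accN m k ∧ m * b3 ≤ accN m k ∧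
      b4 * ρ ≤ C * (Nat.log 2 (m+1) + 1)^2 * (m+1) * accN m k ∧
      b5 * 8^(m+1) ≤ 3^(m+1) * accN m k ∧
      Set.ncard {x : (Fin (m+1) → Fin k → Fin (m+1)) × Fin (m+1) | Acc x.1 0 ∧
        ¬ ∀ p q, LE x.1 x.2 p q → p = q} ≤ (m+1) * b1 + (m+1) * b2 + (m+1) * b3 + b4 + b5 := by
  haveI : NeZero k := ⟨by omega⟩
  obtain ⟨s0, C3, m3, h3⟩ := acc_bad k hk
  obtain ⟨C2, h2⟩ := small_struct k s0 hk
  obtain ⟨n5, h5⟩ := asymp k
  obtain ⟨m6, h6⟩ : ∃ m6 : ℕ, ∀ m, m6 ≤ m →
      2 * (C3 * (Nat.log 2 (m+1) + 1)^2) ≤ m + 1 := by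
    obtain ⟨m6, h6⟩ := log_sq_le (2 * C3)
    exact ⟨m6, fun m hm => by have := h6 m hm; rw [mul_assoc] at this; exact this⟩
  refine ⟨C2 + C3, m3 + n5 + m6 + 2 ^ 24, fun m ρ hm hρ1 hρ => ?_⟩
  classical
  set n := m + 1 with hn
  set L := Nat.log 2 (m+1) + 1 with hL
  set t := C3 * L^2 with ht
  -- the five families
  set S1 : Set (Fin (m+1) → Fin k → Fin (m+1)) := {T | Acc T 0 ∧ ∃ u v, u ≠ v ∧ T u = T v}
    with hS1
  set S2 : Set (Fin (m+1) → Fin k → Fin (m+1)) := {T | Acc T 0 ∧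
      ∃ M : Finset (Fin (m+1)), M.card ≤ s0 ∧
        Closed T M ∧ ∃ u ∈ M, ∃ v ∈ M, ∃ a, T u a ≠ T v a ∧ T u a ∈ M ∧ T v a ∈ M} with hS2
  set S3 : Set (Fin (m+1) → Fin k → Fin (m+1)) := {T | Acc T 0 ∧
        ∃ p q, p ≠ q ∧ s0 < (visited T p q).card ∧ t < (Finset.univ \ visited T p q).card} with hS3
  set S4 : Set ((Fin (m+1) → Fin k → Fin (m+1)) × Fin (m+1)) :=
    {x | x.1 ∈ {T : Fin (m+1) → Fin k → Fin (m+1) | Acc T 0 ∧
        ∀ p q, p ≠ q → (Finset.univ \ visited T p q).card ≤ t} ∧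
      n * ρ < Set.ncard {y : Fin (m+1) × Fin (m+1) | y.1 ≠ y.2 ∧ LE x.1 x.2 y.1 y.2}} with hS4
  set S5 : Set ((Fin (m+1) → Fin k → Fin (m+1)) × Fin (m+1)) :=
    {x | Set.ncard {y : Fin (m+1) × Fin (m+1) | y.1 ≠ y.2 ∧ LE x.1 x.2 y.1 y.2} ≤ n * ρ ∧
      n ≤ 2 * Set.ncard {u : Fin (m+1) | ∃ v, v ≠ u ∧ LE x.1 x.2 u v}} with hS5
  refine ⟨S1.ncard, S2.ncard, S3.ncard, S4.ncard, S5.ncard, ?_, ?_, ?_, ?_, ?_, ?_⟩
  · have := identical_rows (Fin (m+1)) k 0
    simp only [Fintype.card_fin, Nat.add_sub_cancel] at this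
    have hA : Set.ncard {T : Fin (m+1) → Fin k → Fin (m+1) | Acc T 0} = accN m k := rfl
    rw [hA] at this
    have hk2 : (m+1)^k = (m+1)^2 * (m+1)^(k-2) := by rw [← pow_add]; congr 1; omega
    rw [hk2] at this
    have h7 : (m+1)^2 * (2 * (m+1)^(k-2) * S1.ncard) ≤ (m+1)^2 * accN m k := by
      calc (m+1)^2 * (2 * (m+1)^(k-2) * S1.ncard)
          = 2 * ((m+1)^2 * (m+1)^(k-2)) * S1.ncard := by ring
        _ ≤ (m+1) * m * accN m k := this
        _ ≤ (m+1)^2 * accN m k := by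
            apply Nat.mul_le_mul_right
            rw [sq]; exact Nat.mul_le_mul_left _ (by omega)
    exact Nat.le_of_mul_le_mul_left h7 (by positivity)
  · have := h2 (Fin (m+1)) 0
    simp only [Fintype.card_fin] at this
    calc (m+1) * S2.ncard ≤ C2 * accN m k := this
      _ ≤ (C2 + C3) * accN m k := Nat.mul_le_mul_right _ (by omega)
  · exact h3 m (by omega)
  · -- Markov
    have hb : S4.ncard ≤ accN m k * (n * C3 * L^2 / ρ) := by
      have h8 : Set.ncard {T : Fin (m+1) → Fin k → Fin (m+1) | Acc T 0 ∧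
        ∀ p q, p ≠ q → (Finset.univ \ visited T p q).card ≤ t} ≤ accN m k :=
        Set.ncard_le_ncard (fun T hT => hT.1) (Set.toFinite _)
      refine le_trans (ncard_fiber_le (α := Fin (m+1) → Fin k → Fin (m+1)) (β := Fin (m+1)) _
        (fun T f => n * ρ < Set.ncard
          {y : Fin (m+1) × Fin (m+1) | y.1 ≠ y.2 ∧ LE T f y.1 y.2}) (n * C3 * L^2 / ρ) ?_)
        (Nat.mul_le_mul_right _ h8)
      intro T hT
      have h9 := markov_LE T t (n * ρ) hT.2
      simp only [Fintype.card_fin] at h9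
      rw [Nat.le_div_iff_mul_le (by positivity)]
      generalize hX : Set.ncard {f : Fin (m+1) | n * ρ < Set.ncard
          {y : Fin (m+1) × Fin (m+1) | y.1 ≠ y.2 ∧ LE T f y.1 y.2}} = X at h9 ⊢
      have h10 : n * (X * ρ) ≤ n * (n * C3 * L^2) := by
        have e1 : n * (X * ρ) = X * (n * ρ) := by ring
        have e2 : n * (n * C3 * L^2) = (m+1)^2 * t := by rw [ht, hn]; ring
        rw [e1, e2]; exact h9
      exact Nat.le_of_mul_le_mul_left h10 (by positivity)
    calc S4.ncard * ρ ≤ accN m k * (n * C3 * L^2 / ρ) * ρ := Nat.mul_le_mul_right _ hb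
      _ = accN m k * (n * C3 * L^2 / ρ * ρ) := by ring
      _ ≤ accN m k * (n * C3 * L^2) := Nat.mul_le_mul_left _ (Nat.div_mul_le_self _ _)
      _ = C3 * L^2 * n * accN m k := by ring
      _ ≤ (C2 + C3) * L^2 * n * accN m k := by gcongr; omega
  · have h11 := congr_gen k hk ρ (Fin (m+1)) (by rw [Fintype.card_fin]; omega)
      (by rw [Fintype.card_fin]; exact h5 (m+1) ρ (by omega) hρ)
    simp only [Fintype.card_fin] at h11
    exact le_trans h11 (pow_le_accN m k (by omega))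
  · -- the union
    have hsub : {x : (Fin (m+1) → Fin k → Fin (m+1)) × Fin (m+1) | Acc x.1 0 ∧
        ¬ ∀ p q, LE x.1 x.2 p q → p = q}
        ⊆ ((({x | x.1 ∈ S1} ∪ {x | x.1 ∈ S2}) ∪ {x | x.1 ∈ S3}) ∪ S4) ∪ S5 := by
      rintro ⟨T, f⟩ ⟨hT, hne⟩
      simp only [] at hT hne
      by_cases c1 : T ∈ S1
      · exact Or.inl (Or.inl (Or.inl (Or.inl c1)))
      by_cases c2 : T ∈ S2
      · exact Or.inl (Or.inl (Or.inl (Or.inr c2)))
      by_cases c3 : T ∈ S3
      · exact Or.inl (Or.inl (Or.inr c3))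
      -- all explorations are large
      have hlarge : ∀ p q, p ≠ q → (Finset.univ \ visited T p q).card ≤ t := by
        intro p q hpq
        by_contra hcon
        push_neg at hcon
        by_cases hs : s0 < (visited T p q).card
        · exact c3 ⟨hT, p, q, hpq, hs, hcon⟩
        · push_neg at hs
          apply c2
          refine ⟨hT, visited T p q, hs, visited_closed T p q hpq, p, (visited_mem T p q).1,
            q, (visited_mem T p q).2, ?_⟩
          have hrow : T p ≠ T q := fun h => c1 ⟨hT, p, q, hpq, h⟩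
          obtain ⟨a, ha⟩ : ∃ a, T p a ≠ T q a := by
            by_contra hc; push_neg at hc; exact hrow (funext hc)
          rcases visited_pair T p q hpq a with h | h
          · exact absurd h ha
          · exact ⟨a, ha, h.1, h.2⟩
      push_neg at hne
      obtain ⟨p, q, hLE, hpq⟩ := hne
      by_cases c4 : n * ρ < Set.ncard
          {y : Fin (m+1) × Fin (m+1) | y.1 ≠ y.2 ∧ LE T f y.1 y.2}
      · exact Or.inl (Or.inr ⟨⟨hT, hlarge⟩, c4⟩)
      · refine Or.inr ⟨by push_neg at c4; exact c4, ?_⟩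
        have h12 := hlarge p q hpq
        have h13 : (visited T p q).card + (Finset.univ \ visited T p q).card = n := by
          rw [Finset.card_sdiff_of_subset (Finset.subset_univ _), Finset.card_univ, Fintype.card_fin]
          have := Finset.card_le_univ (visited T p q)
          rw [Fintype.card_fin] at this
          omega
        have h14 : (visited T p q).card ≤ Set.ncard {u : Fin (m+1) | ∃ v, v ≠ u ∧ LE T f u v} := by
          rw [← Set.ncard_coe_finset]
          apply Set.ncard_le_ncard _ (Set.toFinite _)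
          intro u hu
          exact visited_equiv T p q hpq (LE T f) (LE_equiv T f)
            (fun u v h a => LE_compat T f u v h a) hLE u hu
        have h15 := h6 m (by omega)
        change n ≤ 2 * _
        have h16 : 2 * t ≤ n := h15
        simp only [] 
        omega
    refine le_trans (Set.ncard_le_ncard hsub (Set.toFinite _)) ?_
    refine le_trans (Set.ncard_union_le _ _) ?_
    apply Nat.add_le_add_right
    refine le_trans (Set.ncard_union_le _ _) ?_
    apply Nat.add_le_add_right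
    refine le_trans (Set.ncard_union_le _ _) ?_
    have e1 : Set.ncard {x : (Fin (m+1) → Fin k → Fin (m+1)) × Fin (m+1) | x.1 ∈ S1}
        = S1.ncard * (m+1) := by rw [ncard_prod_first]; simp
    have e2 : Set.ncard {x : (Fin (m+1) → Fin k → Fin (m+1)) × Fin (m+1) | x.1 ∈ S2}
        = S2.ncard * (m+1) := by rw [ncard_prod_first]; simp
    have e3 : Set.ncard {x : (Fin (m+1) → Fin k → Fin (m+1)) × Fin (m+1) | x.1 ∈ S3}
        = S3.ncard * (m+1) := by rw [ncard_prod_first]; simp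
    have h17 := Set.ncard_union_le {x : (Fin (m+1) → Fin k → Fin (m+1)) × Fin (m+1) | x.1 ∈ S1}
      {x : (Fin (m+1) → Fin k → Fin (m+1)) × Fin (m+1) | x.1 ∈ S2}
    rw [e1, e2] at h17
    rw [e3]
    nlinarith

end Pool.Agent.Y873.OF
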