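import Pool.Agent.Helper338.RA.Assembly

set_option autoImplicit false

/-!
The counting bound `RA.congr_bound` with a free parameter `ρ` in place of `(log₂ N + 1) ^ 3`.
-/

namespace Pool.Agent.Y873.OF

open RA RA.J7743

theorem congr_gen (k : ℕ) (hk : 2 ≤ k) (ρ : ℕ) (V : Type) [Fintype V] [DecidableEq V]
    (hV : 2 ^ 24 ≤ Fintype.card V)
    (hρH : Fintype.card V ^ (1 + k * ((Nat.sqrt (Fintype.card V * ρ) + 1) * 2 ^ 48 * (1 + ρ) ^ k))
      ≤ 2 ^ Fintype.card V) :
    Set.ncard {x : (V → Fin k → V) × V |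
        Set.ncard {y : V × V | y.1 ≠ y.2 ∧ LE x.1 x.2 y.1 y.2}
          ≤ Fintype.card V * ρ ∧
        Fintype.card V ≤ 2 * Set.ncard {u : V | ∃ v, v ≠ u ∧ LE x.1 x.2 u v}}
        * 8^(Fintype.card V)
      ≤ (Fintype.card V)^(k * Fintype.card V) := by
  classical
  obtain ⟨N, hN⟩ : ∃ N, N = Fintype.card V := ⟨_, rfl⟩
  rw [← hN] at hV hρH ⊢
  have hN24 : 2 ^ 24 ≤ N := hV
  have hN1 : 1 ≤ N := (Nat.one_le_two_pow).trans hN24
  have hne : Nonempty V := by
    rw [← Fintype.card_pos_iff, ← hN]; exact hN1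
  obtain ⟨B, hB⟩ : ∃ B, B = Nat.sqrt (N * ρ) + 1 := ⟨_, rfl⟩
  obtain ⟨H, hH⟩ : ∃ H, H = B * 2 ^ 48 * (1 + ρ) ^ k := ⟨_, rfl⟩
  obtain ⟨D, hD⟩ : ∃ D, D = N ^ (k - 1) / 2 ^ 24 + 1 := ⟨_, rfl⟩
  have hHN : N ^ (1 + k * H) ≤ 2 ^ N := by
    rw [← hB, ← hH] at hρH
    exact hρH
  have hD1 : 1 ≤ D := by rw [hD]; omega
  have hD2 : N ^ (k - 1) ≤ D * 2 ^ 24 := by
    have h24 : (0 : ℕ) < 2 ^ 24 := by positivity
    rw [hD]
    generalize (2 : ℕ) ^ 24 = c at h24 ⊢
    have := Nat.lt_mul_div_succ (N ^ (k - 1)) h24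
    rw [mul_comm]
    exact this.le
  have hD3 : D * 2 ^ 23 ≤ N ^ (k - 1) := by
    have h1 : N ^ (k - 1) / 2 ^ 24 * 2 ^ 24 ≤ N ^ (k - 1) := Nat.div_mul_le_self _ _
    have h2 : N ≤ N ^ (k - 1) := by
      calc N = N ^ 1 := (pow_one N).symm
        _ ≤ N ^ (k - 1) := Nat.pow_le_pow_right hN1 (by omega)
    rw [hD]
    generalize N ^ (k - 1) / 2 ^ 24 = q at h1 ⊢
    have h3 : (2 : ℕ) ^ 24 = 2 * 2 ^ 23 := by rw [← pow_succ']
    have h4 := hN24
    rw [h3] at h1 h4
    generalize (2 : ℕ) ^ 23 = c at h1 h4 ⊢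
    have e1 : q * (2 * c) = 2 * (q * c) := by ring
    have e2 : (q + 1) * c = q * c + c := by ring
    rw [e1] at h1
    rw [e2]
    have h5 : 2 * c ≤ N ^ (k - 1) := h4.trans h2
    omega
  -- sets
  let mv : (V → V) → Finset V := fun r => Finset.univ.filter (fun u => r u ≠ u)
  let C : (V → V) → Set (V → Fin k → V) := fun r =>
    {T | (∀ u a, r (T u a) = r (T (r u) a)) ∧
        (Finset.univ.filter (fun u => r u ≠ u ∧
          D < ∏ a, (Finset.univ.filter (fun v => r v = r (T (r u) a))).card)).card ≤ H}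
  let R : Finset (V → V) := Finset.univ.filter (fun r => (∀ u, r (r u) = r u) ∧ N ≤ 4 * (mv r).card)
  obtain ⟨X, hX⟩ : ∃ X : Set ((V → Fin k → V) × V), X = {x : (V → Fin k → V) × V |
        Set.ncard {y : V × V | y.1 ≠ y.2 ∧ LE x.1 x.2 y.1 y.2} ≤ N * ρ ∧
        N ≤ 2 * Set.ncard {u : V | ∃ v, v ≠ u ∧ LE x.1 x.2 u v}} := ⟨_, rfl⟩
  rw [← hX]
  have hXC : ∀ x ∈ X, ∃ r ∈ R, x.1 ∈ C r := by
    intro x hx
    rw [hX] at hx
    obtain ⟨hx1, hx2⟩ := hx
    obtain ⟨r, hr1, hr2⟩ := exists_rep833 x.1 x.2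
    obtain ⟨f1, f2, f3, f4, f5⟩ := rep_facts833 hr1 hr2
    have hA : ∀ y : V × V, y ∈ {y : V × V | y.1 ≠ y.2 ∧ LE x.1 x.2 y.1 y.2} ↔
        y.1 ≠ y.2 ∧ r y.1 = r y.2 := by
      intro y
      rw [f2]
      exact Iff.rfl
    refine ⟨r, ?_, f4, ?_⟩
    · rw [Finset.mem_filter]
      refine ⟨Finset.mem_univ _, f1, ?_⟩
      have h3 := nonrep833 r f1 {u : V | ∃ v, v ≠ u ∧ LE x.1 x.2 u v} (fun u hu => by
        obtain ⟨v, hv1, hv2⟩ := hu
        exact ⟨v, hv1, (f2 u v).mpr hv2⟩)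
      show N ≤ 4 * (Finset.univ.filter (fun u => r u ≠ u)).card
      omega
    · rw [hH]
      refine heavy_le833 hk hN1 hD2 (heavy_bound V k x.1 x.2 r f1 f3 f5 D B ?_) ?_
      · intro v
        rw [hB]
        exact class_le833 r _ hA v hx1
      · have h4 := sum_class833 r _ hA
        rw [← hN] at h4
        calc _ ≤ _ := h4
          _ ≤ N + N * ρ := Nat.add_le_add_left hx1 _
          _ = N * (1 + ρ) := by ring
  have hcard : X.ncard ≤ N * ∑ r ∈ R, (C r).ncard := by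
    have h1 : X.toFinset ⊆ ((Finset.univ : Finset V) ×ˢ R).biUnion
        (fun p => (C p.2).toFinset.image (fun T => (T, p.1))) := by
      intro x hx
      rw [Set.mem_toFinset] at hx
      obtain ⟨r, hr, hxr⟩ := hXC x hx
      rw [Finset.mem_biUnion]
      refine ⟨(x.2, r), Finset.mem_product.mpr ⟨Finset.mem_univ _, hr⟩, ?_⟩
      rw [Finset.mem_image]
      exact ⟨x.1, Set.mem_toFinset.mpr hxr, rfl⟩
    rw [Set.ncard_eq_toFinset_card']
    calc _ ≤ _ := Finset.card_le_card h1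
      _ ≤ _ := Finset.card_biUnion_le
      _ ≤ ∑ p ∈ (Finset.univ : Finset V) ×ˢ R, (C p.2).ncard := by
        refine Finset.sum_le_sum (fun p _ => ?_)
        rw [Set.ncard_eq_toFinset_card']
        exact Finset.card_image_le
      _ = N * ∑ r ∈ R, (C r).ncard := by
        rw [Finset.sum_product]
        show ∑ _x : V, (∑ r ∈ R, (C r).ncard) = _
        rw [Finset.sum_const, Finset.card_univ, ← hN, smul_eq_mul]
  have hC : ∀ r ∈ R, (C r).ncard ≤ N ^ (k * (N - (mv r).card)) * D ^ (mv r).card * N ^ (k * H) := by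
    intro r hr
    rw [Finset.mem_filter] at hr
    have h1 := congr_count V k r hr.2.1 D H hD1
    have h2 : (Finset.univ.filter (fun u => r u = u)).card = N - (mv r).card := by
      have h3 := Finset.card_filter_add_card_filter_not (s := (Finset.univ : Finset V)) (fun u => r u = u)
      rw [Finset.card_univ, ← hN] at h3
      show _ = N - (Finset.univ.filter (fun u => r u ≠ u)).card
      have h4 : (Finset.univ.filter (fun u => r u ≠ u)).card
        = (Finset.univ.filter (fun u => ¬ r u = u)).card := rfl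
      omega
    rw [h2, ← hN] at h1
    exact h1
  have hsum : ∑ r ∈ R, (C r).ncard ≤
      ∑ S ∈ (Finset.univ : Finset (Finset V)).filter (fun S => N ≤ 4 * S.card),
        N ^ S.card * (N ^ (k * (N - S.card)) * D ^ S.card * N ^ (k * H)) := by
    have h1 := sum_maps833 (V := V) (fun m => N ^ (k * (N - m)) * D ^ m * N ^ (k * H)) R
      (fun m => N ≤ 4 * m) (fun r hr => by
        rw [Finset.mem_filter] at hr; exact hr.2.2)
    rw [← hN] at h1
    exact (Finset.sum_le_sum hC).trans h1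
  have hfin : X.ncard * 8 ^ N * 2 ^ N ≤ N ^ (k * N) * 2 ^ N := by
    calc X.ncard * 8 ^ N * 2 ^ N ≤ (N * ∑ S ∈ (Finset.univ : Finset (Finset V)).filter
          (fun S => N ≤ 4 * S.card),
          N ^ S.card * (N ^ (k * (N - S.card)) * D ^ S.card * N ^ (k * H))) * 8 ^ N * 2 ^ N := by
          refine Nat.mul_le_mul_right _ (Nat.mul_le_mul_right _ ?_)
          exact hcard.trans (Nat.mul_le_mul_left _ hsum)
      _ = ∑ S ∈ (Finset.univ : Finset (Finset V)).filter (fun S => N ≤ 4 * S.card),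
          (N * (N ^ S.card * (N ^ (k * (N - S.card)) * D ^ S.card * N ^ (k * H)))) *
            (8 ^ N * 2 ^ N) := by
          rw [mul_assoc, Finset.mul_sum, Finset.sum_mul]
      _ ≤ ∑ S ∈ (Finset.univ : Finset (Finset V)).filter (fun S => N ≤ 4 * S.card),
          N ^ (k * N) := by
          refine Finset.sum_le_sum (fun S hS => ?_)
          rw [Finset.mem_filter] at hS
          refine term833 hk ?_ hS.2 hD3 hHN
          rw [hN]; exact Finset.card_le_univ S
      _ ≤ N ^ (k * N) * 2 ^ N := by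
          rw [Finset.sum_const, smul_eq_mul, mul_comm]
          refine Nat.mul_le_mul_left _ ?_
          calc _ ≤ (Finset.univ : Finset (Finset V)).card := Finset.card_filter_le _ _
            _ = 2 ^ N := by rw [Finset.card_univ, Fintype.card_finset, ← hN]
  exact Nat.le_of_mul_le_mul_right hfin (by positivity)

end Pool.Agent.Y873.OF
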